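import Mathlib
import Pool.Agent.H270Z.DimerMain

set_option autoImplicit false

namespace Pool.Agent.Results.MP_5cb0a4_pr.AFrozenFace

open MeasureTheory Pool.Agent.H270Z.Dimer

/-- An ergodic Gibbs measure of mean current `(1/3, 1/3, 1/3)` (not a vertex of the octahedron)
such that, with positive probability, the union of two independent samples has no infinite
component at all. -/
theorem result : ∃ ν : Measure Config, IsErgodicGibbs ν ∧ meanCurrent ν = (fun _ => 1 / 3) ∧
    ¬ ∀ᵐ p ∂(ν.prod ν), ∃ C : (unionGraph p.1 p.2).ConnectedComponent, C.supp.Infinite :=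
  Pool.Agent.H270Z.Dimer.main

end Pool.Agent.Results.MP_5cb0a4_pr.AFrozenFace
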